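import Mathlib
import Pool.Agent.Helper70.PercUpper2
import Pool.Agent.Helper70.PercRep.Sharp
import Pool.Agent.Helper70.Thr3.Asm
import Pool.Agent.Helper70.Gen.Asm

/-!
# The leading constant of the maximum percolation time for all thresholds `3 ≤ r ≤ d`
-/

namespace Pool.Agent.Helper70.LT

open Pool.Agent.Helper19.Perco Pool.Agent.Helper70.Duo Filter Topology

/-- The grid graph on `Fin d → Fin n`: two points are adjacent when they differ by one in
exactly one coordinate and agree in all others. -/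
def grid (d n : ℕ) : SimpleGraph (Fin d → Fin n) where
  Adj x y := ∃ i, ((x i : ℕ) + 1 = y i ∨ (y i : ℕ) + 1 = x i) ∧ ∀ j, j ≠ i → x j = y j
  symm := ⟨by
    rintro x y ⟨i, h1, h2⟩
    exact ⟨i, h1.symm, fun j hj => (h2 j hj).symm⟩⟩
  loopless := ⟨by
    rintro x ⟨i, h1, h2⟩
    omega⟩

/-- The `r`-neighbour bootstrap process on the grid started from `A`. -/
def infected (d r n : ℕ) (A : Set (Fin d → Fin n)) : ℕ → Set (Fin d → Fin n)
  | 0 => A
  | t + 1 => infected d r n A t ∪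
      {v | r ≤ ((grid d n).neighborSet v ∩ infected d r n A t).ncard}

/-- `A` percolates: every vertex is infected at some time. -/
def Percolates (d r n : ℕ) (A : Set (Fin d → Fin n)) : Prop :=
  ⋃ t, infected d r n A t = Set.univ

/-- The percolation time of `A`. -/
noncomputable def percTime (d r n : ℕ) (A : Set (Fin d → Fin n)) : ℕ :=
  sInf {t | infected d r n A t = Set.univ}

/-- The maximum percolation time. -/
noncomputable def maxTime (d r n : ℕ) : ℕ :=
  sSup {T | ∃ A, Percolates d r n A ∧ percTime d r n A = T}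

lemma infected_eq (d r n : ℕ) (A : Set (Fin d → Fin n)) (t : ℕ) :
    infected d r n A t = proc (Gd d n) r A t := by
  induction t with
  | zero => rfl
  | succ t ih =>
    have h : infected d r n A (t + 1) = infected d r n A t ∪
      {v | r ≤ ((grid d n).neighborSet v ∩ infected d r n A t).ncard} := rfl
    rw [h, ih]
    rfl

lemma exists_univ {d r n : ℕ} {A : Set (Fin d → Fin n)} (h : Percolates d r n A) :
    ∃ t, infected d r n A t = Set.univ := by
  obtain ⟨t, ht⟩ := exists_proc_closed (Gd d n) r A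
  refine ⟨t, Set.eq_univ_of_forall fun v => ?_⟩
  have hv : v ∈ ⋃ t, infected d r n A t := by rw [h]; exact Set.mem_univ v
  obtain ⟨s, hs⟩ := Set.mem_iUnion.1 hv
  rw [infected_eq] at hs ⊢
  have hall : ∀ s, proc (Gd d n) r (proc (Gd d n) r A t) s ⊆ proc (Gd d n) r A t := fun s =>
    proc_subset_closed (Gd d n) r _ _ subset_rfl ht s
  have : proc (Gd d n) r A s ⊆ proc (Gd d n) r A t := by
    rcases le_total s t with hst | hst
    · exact proc_mono_time _ _ _ hst
    · obtain ⟨u, rfl⟩ := Nat.exists_eq_add_of_le hst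
      rw [proc_add]
      exact hall u
  exact this hs

lemma percTime_le {d r n : ℕ} {A : Set (Fin d → Fin n)} (h : Percolates d r n A) :
    percTime d r n A ≤ n ^ d := by
  have hex := exists_univ h
  have hT : infected d r n A (percTime d r n A) = Set.univ := Nat.sInf_mem hex
  have hlt : ∀ t < percTime d r n A,
      (infected d r n A t).ncard < (infected d r n A (t + 1)).ncard := by
    intro t ht
    apply Set.ncard_lt_ncard _ (Set.toFinite _)
    refine ⟨fun v hv => Or.inl hv, fun hsub => ?_⟩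
    -- the process is stationary from time `t`
    have hst : Closed (Gd d n) r (infected d r n A t) := by
      intro v hv
      exact hsub (Or.inr hv)
    have hall : infected d r n A (percTime d r n A) ⊆ infected d r n A t := by
      obtain ⟨u, hu⟩ := Nat.exists_eq_add_of_le ht.le
      rw [hu, infected_eq, infected_eq, proc_add]
      exact proc_subset_closed (Gd d n) r _ _ subset_rfl (by rw [← infected_eq]; exact hst) u
    have h2 : infected d r n A t = Set.univ := by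
      apply Set.eq_univ_of_univ_subset
      rw [← hT]; exact hall
    have h3 : percTime d r n A ≤ t := Nat.sInf_le h2
    omega
  have hge : ∀ t ≤ percTime d r n A, t ≤ (infected d r n A t).ncard := by
    intro t
    induction t with
    | zero => intro _; exact Nat.zero_le _
    | succ t ih => intro ht; have := hlt t (by omega); have := ih (by omega); omega
  have h1 := hge _ le_rfl
  rw [hT, Set.ncard_univ, Nat.card_eq_fintype_card, Fintype.card_fun, Fintype.card_fin,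
    Fintype.card_fin] at h1
  exact h1

lemma bddAbove (d r n : ℕ) :
    BddAbove {T | ∃ A, Percolates d r n A ∧ percTime d r n A = T} := by
  refine ⟨n ^ d, ?_⟩
  rintro T ⟨A, hA, rfl⟩
  exact percTime_le hA

lemma maxTime_le (d r n : ℕ) : maxTime d r n ≤ n ^ d := by
  unfold maxTime
  rcases Set.eq_empty_or_nonempty {T | ∃ A, Percolates d r n A ∧ percTime d r n A = T} with h | h
  · rw [h]; simp
  · refine csSup_le h ?_
    rintro T ⟨A, hA, rfl⟩
    exact percTime_le hA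

lemma lt_maxTime {d r n T : ℕ} (h : Slow (Gd d n) r T) : T < maxTime d r n := by
  obtain ⟨A, hA, v, hv⟩ := h
  obtain ⟨t, ht⟩ := (perc_iff (Gd d n) r A).1 hA
  have hperc : Percolates d r n A := by
    apply Set.eq_univ_of_forall
    intro w
    refine Set.mem_iUnion.2 ⟨t, ?_⟩
    rw [infected_eq, ht]; exact Set.mem_univ w
  have h1 : T < percTime d r n A := by
    by_contra hlt
    push Not at hlt
    have hT : infected d r n A (percTime d r n A) = Set.univ := Nat.sInf_mem (exists_univ hperc)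
    apply hv
    apply proc_mono_time (Gd d n) r A hlt
    rw [← infected_eq, hT]; exact Set.mem_univ v
  exact lt_of_lt_of_le h1 (le_csSup (bddAbove d r n) ⟨A, hperc, rfl⟩)

/-- the lower bound in natural numbers -/
lemma lower_nat {d n : ℕ} (hd : 3 ≤ d) (hn : 10 ≤ n) :
    ∃ K w : ℕ, n ≤ K + 2 ∧ 8 ≤ K ∧ n ^ 2 ≤ w + 7 * n ∧ (K - 4) ^ (d - 2) * w ≤ maxTime d d n := by
  obtain ⟨k, rfl⟩ : ∃ k, d = k + 3 := ⟨d - 3, by omega⟩
  set L := 2 * (n / 2) with hL
  set K := 2 * ((n - 1) / 2) with hK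
  refine ⟨K, Pool.Agent.Helper70.Duo.w L 4 + L - 3, by omega, by omega, ?_, ?_⟩
  · unfold Pool.Agent.Helper70.Duo.w
    obtain ⟨l, hl⟩ : ∃ l, L = l + 6 := ⟨L - 6, by omega⟩
    have e : L - 2 - 4 = l := by omega
    rw [e, hl]
    have h1 : l * (l + 6) + (l + 6) - 3 = l * (l + 6) + l + 3 := by omega
    rw [h1]
    rcases (show n = l + 6 ∨ n = l + 7 by omega) with h | h
    · rw [h]; nlinarith
    · rw [h]; nlinarith
  · have h1 := lt_maxTime (slow_diag (L := L) (K := K) (n := n) (by omega) (by omega) (by omega)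
      (by omega) (by omega) (by omega) k)
    have e : k + 3 - 2 = k + 1 := by omega
    rw [e]
    omega

/-- the case `r = d` -/
lemma diag : ∀ d n : ℕ, 3 ≤ d →
    (n : ℝ) ^ d - 7 * (d - 1) * (n : ℝ) ^ (d - 1) ≤ maxTime d d n ∧
      (maxTime d d n : ℝ) ≤ (n : ℝ) ^ d := by
  intro d n hd
  refine ⟨?_, by exact_mod_cast maxTime_le d d n⟩
  have hM0 : (0 : ℝ) ≤ maxTime d d n := Nat.cast_nonneg _
  have hd' : (3 : ℝ) ≤ d := by exact_mod_cast hd
  have hpow : (n : ℝ) ^ d = n * (n : ℝ) ^ (d - 1) := by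
    rw [← pow_succ']
    congr 1; omega
  have hn0 : (0 : ℝ) ≤ (n : ℝ) := Nat.cast_nonneg n
  have hp0 : (0 : ℝ) ≤ (n : ℝ) ^ (d - 1) := by positivity
  rcases Nat.lt_or_ge n 10 with hn | hn
  · have hn' : (n : ℝ) ≤ 10 := by exact_mod_cast hn.le
    rw [hpow]
    nlinarith
  · obtain ⟨K, w, h1, h2, h3, h4⟩ := lower_nat hd hn
    have hn' : (10 : ℝ) ≤ n := by exact_mod_cast hn
    have h4' : ((K - 4 : ℕ) : ℝ) ^ (d - 2) * w ≤ maxTime d d n := by exact_mod_cast h4
    have hK : (n : ℝ) - 7 ≤ ((K - 4 : ℕ) : ℝ) := by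
      have h5 : n ≤ (K - 4) + 7 := by omega
      have h6 : (n : ℝ) ≤ ((K - 4 : ℕ) : ℝ) + 7 := by exact_mod_cast h5
      linarith
    have hw : (n : ℝ) * (n - 7) ≤ w := by
      have h6 : (n : ℝ) ^ 2 ≤ w + 7 * n := by exact_mod_cast h3
      nlinarith
    have h7 : (0 : ℝ) ≤ (n : ℝ) - 7 := by linarith
    have h8 : ((n : ℝ) - 7) ^ (d - 2) ≤ ((K - 4 : ℕ) : ℝ) ^ (d - 2) := pow_le_pow_left₀ h7 hK _
    have h9 : ((n : ℝ) - 7) ^ (d - 2) * (n * (n - 7)) ≤ maxTime d d n := by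
      refine le_trans ?_ h4'
      exact mul_le_mul h8 hw (by positivity) (by positivity)
    -- Bernoulli
    have h10 : (n : ℝ) ^ (d - 1) - 7 * (d - 1) * (n : ℝ) ^ (d - 2) ≤ ((n : ℝ) - 7) ^ (d - 1) := by
      have hpos : (0 : ℝ) < n := by linarith
      have h11 : (-2 : ℝ) ≤ -(7 / n) := by
        have : 7 / (n : ℝ) ≤ 1 := by rw [div_le_one hpos]; linarith
        linarith
      have h12 := one_add_mul_le_pow h11 (d - 1)
      have h13 : ((n : ℝ) - 7) ^ (d - 1) = (n : ℝ) ^ (d - 1) * (1 + -(7 / n)) ^ (d - 1) := by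
        rw [← mul_pow]
        congr 1
        field_simp
        ring
      have h14 : (n : ℝ) ^ (d - 1) = (n : ℝ) ^ (d - 2) * n := by
        rw [← pow_succ]; congr 1; omega
      have h15 : ((d - 1 : ℕ) : ℝ) = (d : ℝ) - 1 := by
        rw [Nat.cast_sub (by omega)]; simp
      rw [h15] at h12
      rw [h13]
      calc (n : ℝ) ^ (d - 1) - 7 * (d - 1) * (n : ℝ) ^ (d - 2)
          = (n : ℝ) ^ (d - 1) * (1 + ((d : ℝ) - 1) * -(7 / n)) := by
            rw [h14]; field_simp; ring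
        _ ≤ _ := mul_le_mul_of_nonneg_left h12 hp0
    have h16 : ((n : ℝ) - 7) ^ (d - 2) * (n * (n - 7)) = n * ((n : ℝ) - 7) ^ (d - 1) := by
      have : ((n : ℝ) - 7) ^ (d - 1) = ((n : ℝ) - 7) ^ (d - 2) * (n - 7) := by
        rw [← pow_succ]; congr 1; omega
      rw [this]; ring
    have h17 : (n : ℝ) * (n : ℝ) ^ (d - 2) = (n : ℝ) ^ (d - 1) := by
      rw [← pow_succ']; congr 1; omega
    rw [h16] at h9
    have h18 := mul_le_mul_of_nonneg_left h10 hn0
    calc (n : ℝ) ^ d - 7 * (d - 1) * (n : ℝ) ^ (d - 1)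
        = n * ((n : ℝ) ^ (d - 1) - 7 * (d - 1) * (n : ℝ) ^ (d - 2)) := by
          rw [hpow, ← h17]; ring
      _ ≤ n * ((n : ℝ) - 7) ^ (d - 1) := h18
      _ ≤ _ := h9

/-- For `3 ≤ r < d` the leading constant of `M_r^d(n) / n^d` is at most
`(r - 1) / (2 d - r - 1)`. -/
theorem upper : ∀ d r n : ℕ, 3 ≤ r → r < d →
    (2 * d - r - 1) * maxTime d r n ≤ (r - 1) * n ^ d + 2 * d * n ^ (d - 1) := by
  intro d r n hr hrd
  rcases Nat.eq_zero_or_pos (maxTime d r n) with h0 | h0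
  · rw [h0]; simp
  have hne : {T | ∃ A, Percolates d r n A ∧ percTime d r n A = T}.Nonempty := by
    by_contra h
    rw [Set.not_nonempty_iff_eq_empty] at h
    unfold maxTime at h0
    rw [h] at h0
    simp at h0
  obtain ⟨A, hA, hT⟩ := Nat.sSup_mem hne (bddAbove d r n)
  have hT' : percTime d r n A = maxTime d r n := hT
  obtain ⟨t, ht⟩ := exists_univ hA
  have hP : Perc (Gd d n) r A := (perc_iff _ _ _).2 ⟨t, by rw [← infected_eq]; exact ht⟩
  have huniv : infected d r n A (percTime d r n A) = Set.univ := Nat.sInf_mem (exists_univ hA)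
  -- a vertex infected exactly at the last time
  have hex : ∃ v, tau (Gd d n) r A v = percTime d r n A := by
    by_contra hcon
    push Not at hcon
    have hle : infected d r n A (percTime d r n A - 1) = Set.univ := by
      apply Set.eq_univ_of_forall
      intro v
      rw [infected_eq, mem_proc_iff hP]
      have h1 : v ∈ infected d r n A (percTime d r n A) := by rw [huniv]; exact Set.mem_univ v
      rw [infected_eq, mem_proc_iff hP] at h1
      have := hcon v
      omega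
    have : percTime d r n A ≤ percTime d r n A - 1 := Nat.sInf_le hle
    omega
  obtain ⟨v, hv⟩ := hex
  rw [hT'] at hv
  have hfin := Pool.Agent.Helper70.Rep.sharp (by omega) (by omega) hrd hP hv h0
  nlinarith [Nat.zero_le (2 * d - r - 1)]

/-- the case `r = 3` -/
lemma three (d : ℕ) (hd : 3 ≤ d) :
    ∃ C : ℕ, ∀ n : ℕ, n ^ d ≤ (d - 2) * maxTime d 3 n + C * n ^ (d - 1) := by
  rcases Nat.lt_or_ge d 4 with h | h
  · have h3 : d = 3 := by omega
    subst h3
    refine ⟨14, fun n => ?_⟩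
    have h1 := (diag 3 n le_rfl).1
    have h2 : (n : ℝ) ^ 3 ≤ (3 - 2 : ℕ) * (maxTime 3 3 n : ℝ) + 14 * (n : ℝ) ^ (3 - 1) := by
      norm_num at h1 ⊢
      linarith
    exact_mod_cast h2
  · obtain ⟨a, rfl⟩ : ∃ a, d = a + 4 := ⟨d - 4, by omega⟩
    obtain ⟨C, hC⟩ := Pool.Agent.Helper70.Thr3.slow_three a
    refine ⟨C, fun n => ?_⟩
    have e1 : a + 4 - 2 = a + 2 := by omega
    have e2 : a + 4 - 1 = a + 3 := by omega
    rw [e1, e2]
    rcases Nat.lt_or_ge n C with h1 | h1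
    · calc n ^ (a + 4) = n * n ^ (a + 3) := by ring
        _ ≤ C * n ^ (a + 3) := Nat.mul_le_mul_right _ h1.le
        _ ≤ _ := Nat.le_add_left _ _
    · obtain ⟨T, h2, h3⟩ := hC n h1
      refine h3.trans (Nat.add_le_add_right (Nat.mul_le_mul_left _ ?_) _)
      exact (lt_maxTime h2).le

/-- the case `4 ≤ r < d` -/
lemma mid (d r : ℕ) (hr : 4 ≤ r) (hrd : r < d) :
    ∃ C : ℕ, ∀ n : ℕ, (r - 1) * n ^ d ≤ (2 * d - r - 1) * maxTime d r n + C * n ^ (d - 1) := by
  obtain ⟨μ, b, k, hμ, hk, hb, e1, e2⟩ : ∃ μ b k, 1 ≤ μ ∧ 1 ≤ k ∧ b ≤ 1 ∧ r = 2 * μ + b + 2 ∧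
      d = 2 * μ + b + 2 + k :=
    ⟨(r - 2) / 2, (r - 2) % 2, d - r, by omega, by omega, by omega, by omega, by omega⟩
  obtain ⟨C0, hC0⟩ := Pool.Agent.Helper70.Gen.slow_gen μ k b hμ hk hb
  refine ⟨(r - 1) * C0 + C0, fun n => ?_⟩
  have e3 : r - 1 = 2 * μ + 1 + b := by omega
  have e4 : 2 * d - r - 1 = 2 * (μ + k) + 1 + b := by omega
  have e5 : d - 1 = 2 * μ + b + 1 + k := by omega
  rcases Nat.lt_or_ge n C0 with h | h
  · have e6 : n ^ d = n * n ^ (d - 1) := by
      rw [← pow_succ']; congr 1; omega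
    rw [e6]
    calc (r - 1) * (n * n ^ (d - 1)) ≤ (r - 1) * (C0 * n ^ (d - 1)) :=
          Nat.mul_le_mul_left _ (Nat.mul_le_mul_right _ h.le)
      _ = (r - 1) * C0 * n ^ (d - 1) := by ring
      _ ≤ ((r - 1) * C0 + C0) * n ^ (d - 1) := Nat.mul_le_mul_right _ (Nat.le_add_right _ _)
      _ ≤ _ := Nat.le_add_left _ _
  · obtain ⟨T, h1, h2⟩ := hC0 n h
    rw [← e2, ← e1] at h1
    rw [← e3, ← e4, ← e5, ← e2] at h2
    have h3 := (lt_maxTime h1).le
    calc (r - 1) * n ^ d ≤ (2 * d - r - 1) * T + C0 * n ^ (d - 1) := h2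
      _ ≤ (2 * d - r - 1) * maxTime d r n + C0 * n ^ (d - 1) :=
        Nat.add_le_add_right (Nat.mul_le_mul_left _ h3) _
      _ ≤ _ := Nat.add_le_add_left (Nat.mul_le_mul_right _ (Nat.le_add_left _ _)) _

/-- the lower bound for all `3 ≤ r ≤ d` -/
lemma lower (d r : ℕ) (hr : 3 ≤ r) (hrd : r ≤ d) :
    ∃ C : ℕ, ∀ n : ℕ, (r - 1) * n ^ d ≤ (2 * d - r - 1) * maxTime d r n + C * n ^ (d - 1) := by
  rcases Nat.lt_or_ge r d with h | h
  · rcases Nat.lt_or_ge r 4 with h3 | h3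
    · have e : r = 3 := by omega
      subst e
      obtain ⟨C, hC⟩ := three d hrd
      refine ⟨2 * C, fun n => ?_⟩
      have e1 : 2 * d - 3 - 1 = 2 * (d - 2) := by omega
      rw [e1]
      have := Nat.mul_le_mul_left 2 (hC n)
      calc (3 - 1) * n ^ d = 2 * n ^ d := rfl
        _ ≤ 2 * ((d - 2) * maxTime d 3 n + C * n ^ (d - 1)) := this
        _ = _ := by ring
    · exact mid d r h3 h
  · have e : r = d := le_antisymm hrd h
    subst e
    refine ⟨(r - 1) * (7 * r), fun n => ?_⟩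
    have h1 := (diag r n hr).1
    have h2 : (n : ℝ) ^ r ≤ (maxTime r r n : ℝ) + 7 * r * (n : ℝ) ^ (r - 1) := by
      have : (0 : ℝ) ≤ (n : ℝ) ^ (r - 1) := by positivity
      nlinarith
    have h3 : n ^ r ≤ maxTime r r n + 7 * r * n ^ (r - 1) := by exact_mod_cast h2
    have e1 : 2 * r - r - 1 = r - 1 := by omega
    rw [e1]
    calc (r - 1) * n ^ r ≤ (r - 1) * (maxTime r r n + 7 * r * n ^ (r - 1)) :=
          Nat.mul_le_mul_left _ h3
      _ = _ := by ring

/-- the limit from the two bounds -/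
lemma limit (d r : ℕ) (hr : 3 ≤ r) (hrd : r ≤ d)
    (h1 : ∀ n : ℕ, (2 * d - r - 1) * maxTime d r n ≤ (r - 1) * n ^ d + 2 * d * n ^ (d - 1))
    (h2 : ∃ C : ℕ, ∀ n : ℕ, (r - 1) * n ^ d ≤
      (2 * d - r - 1) * maxTime d r n + C * n ^ (d - 1)) :
    Tendsto (fun n : ℕ => (maxTime d r n : ℝ) / (n : ℝ) ^ d) atTop
      (𝓝 (((r : ℝ) - 1) / (2 * d - r - 1))) := by
  obtain ⟨C, hC⟩ := h2
  have hr' : (3 : ℝ) ≤ r := by exact_mod_cast hr
  have hd' : (r : ℝ) ≤ d := by exact_mod_cast hrd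
  have hq : (0 : ℝ) < 2 * d - r - 1 := by linarith
  have c1 : ((2 * d - r - 1 : ℕ) : ℝ) = 2 * d - r - 1 := by
    rw [Nat.sub_sub, Nat.cast_sub (by omega)]; push_cast; ring
  have c2 : ((r - 1 : ℕ) : ℝ) = r - 1 := by rw [Nat.cast_sub (by omega)]; simp
  have key1 : ∀ n : ℕ, 1 ≤ n → (maxTime d r n : ℝ) / (n : ℝ) ^ d ≤
      ((r : ℝ) - 1) / (2 * d - r - 1) + (2 * d / (2 * d - r - 1)) * (1 / (n : ℝ)) := by
    intro n hn
    have hn' : (0 : ℝ) < n := by exact_mod_cast hn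
    have h : ((2 * d - r - 1 : ℕ) : ℝ) * maxTime d r n ≤
        ((r - 1 : ℕ) : ℝ) * (n : ℝ) ^ d + 2 * d * (n : ℝ) ^ (d - 1) := by exact_mod_cast h1 n
    rw [c1, c2] at h
    have e : (n : ℝ) ^ d = n * (n : ℝ) ^ (d - 1) := by
      rw [← pow_succ']; congr 1; omega
    have hp : (0 : ℝ) < (n : ℝ) ^ (d - 1) := by positivity
    rw [div_le_iff₀ (by positivity)]
    have h3 : (((r : ℝ) - 1) / (2 * d - r - 1) + (2 * d / (2 * d - r - 1)) * (1 / (n : ℝ))) *
        (n : ℝ) ^ d = (((r : ℝ) - 1) * (n : ℝ) ^ d + 2 * d * (n : ℝ) ^ (d - 1)) /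
          (2 * d - r - 1) := by
      rw [e]; field_simp
    rw [h3, le_div_iff₀ hq]
    linarith
  have key2 : ∀ n : ℕ, 1 ≤ n → ((r : ℝ) - 1) / (2 * d - r - 1) -
      (C / (2 * d - r - 1)) * (1 / (n : ℝ)) ≤ (maxTime d r n : ℝ) / (n : ℝ) ^ d := by
    intro n hn
    have hn' : (0 : ℝ) < n := by exact_mod_cast hn
    have h : ((r - 1 : ℕ) : ℝ) * (n : ℝ) ^ d ≤
        ((2 * d - r - 1 : ℕ) : ℝ) * maxTime d r n + C * (n : ℝ) ^ (d - 1) := by
      exact_mod_cast hC n
    rw [c1, c2] at h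
    have e : (n : ℝ) ^ d = n * (n : ℝ) ^ (d - 1) := by
      rw [← pow_succ']; congr 1; omega
    have hp : (0 : ℝ) < (n : ℝ) ^ (d - 1) := by positivity
    rw [le_div_iff₀ (by positivity)]
    have h3 : (((r : ℝ) - 1) / (2 * d - r - 1) - (C / (2 * d - r - 1)) * (1 / (n : ℝ))) *
        (n : ℝ) ^ d = (((r : ℝ) - 1) * (n : ℝ) ^ d - C * (n : ℝ) ^ (d - 1)) /
          (2 * d - r - 1) := by
      rw [e]; field_simp
    rw [h3, div_le_iff₀ hq]
    linarith
  have hz : Tendsto (fun n : ℕ => 1 / (n : ℝ)) atTop (𝓝 0) := tendsto_one_div_atTop_nhds_zero_nat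
  refine tendsto_of_tendsto_of_tendsto_of_le_of_le'
    (g := fun n : ℕ => ((r : ℝ) - 1) / (2 * d - r - 1) - (C / (2 * d - r - 1)) * (1 / (n : ℝ)))
    (h := fun n : ℕ => ((r : ℝ) - 1) / (2 * d - r - 1) +
      (2 * d / (2 * d - r - 1)) * (1 / (n : ℝ))) ?_ ?_ ?_ ?_
  · simpa using tendsto_const_nhds.sub (hz.const_mul ((C : ℝ) / (2 * d - r - 1)))
  · simpa using tendsto_const_nhds.add (hz.const_mul ((2 * d : ℝ) / (2 * d - r - 1)))
  · exact eventually_atTop.2 ⟨1, key2⟩
  · exact eventually_atTop.2 ⟨1, key1⟩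

/-- For all `3 ≤ r ≤ d` : `M_r^d(n) = (r - 1) / (2 d - r - 1) * n^d + O(n^(d - 1))`. -/
theorem main : ∀ d r : ℕ, 3 ≤ r → r ≤ d →
    (∀ n : ℕ, (2 * d - r - 1) * maxTime d r n ≤ (r - 1) * n ^ d + 2 * d * n ^ (d - 1)) ∧
    (∃ C : ℕ, ∀ n : ℕ, (r - 1) * n ^ d ≤
      (2 * d - r - 1) * maxTime d r n + C * n ^ (d - 1)) ∧
    Tendsto (fun n : ℕ => (maxTime d r n : ℝ) / (n : ℝ) ^ d) atTop
      (𝓝 (((r : ℝ) - 1) / (2 * d - r - 1))) := by
  intro d r hr hrd
  have h1 : ∀ n : ℕ, (2 * d - r - 1) * maxTime d r n ≤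
      (r - 1) * n ^ d + 2 * d * n ^ (d - 1) := by
    intro n
    rcases Nat.lt_or_ge r d with h | h
    · exact upper d r n hr h
    · have e : r = d := le_antisymm hrd h
      subst e
      have h1 : 2 * r - r - 1 = r - 1 := by omega
      rw [h1]
      have h2 := Nat.mul_le_mul_left (r - 1) (maxTime_le r r n)
      omega
  have h2 := lower d r hr hrd
  exact ⟨h1, h2, limit d r hr hrd h1 h2⟩

end Pool.Agent.Helper70.LT
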